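import Mathlib
import Pool.Agent.H25.Polar2

set_option autoImplicit false

namespace Pool.Agent.Results.MP_10964f_lc.Negative

open Cardinal Set Filter

/-- The dominating number. -/
noncomputable def dNum : Cardinal.{0} :=
  sInf {κ | ∃ F : Set (ℕ → ℕ), #F = κ ∧ ∀ g : ℕ → ℕ, ∃ f ∈ F, ∀ᶠ n in atTop, g n ≤ f n}

/-- The strong polarized relation for `κ` and `ω` with two colours. -/
def Polarized (κ : Cardinal.{0}) : Prop :=
  ∀ L : Type, #L = κ → ∀ c : L × ℕ → Fin 2, ∃ (A : Set L) (B : Set ℕ),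
    #A = κ ∧ B.Infinite ∧ ∃ i, ∀ a ∈ A, ∀ b ∈ B, c (a, b) = i

open Pool.Agent.H25.Polar in
theorem result (h : dNum.ord.cof < dNum) : ¬ Polarized dNum := by
  classical
  intro hP
  have h1 : ∀ k, k < dNum → BelowD k := by
    intro k hk F hF
    by_contra h2
    push Not at h2
    exact absurd (lt_of_le_of_lt hF hk) (not_lt.2 (csInf_le' ⟨F, rfl, h2⟩))
  obtain ⟨F, hF1, hF2⟩ : dNum ∈ {κ | ∃ F : Set (ℕ → ℕ), #F = κ ∧
      ∀ g : ℕ → ℕ, ∃ f ∈ F, ∀ᶠ n in atTop, g n ≤ f n} :=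
    csInf_mem ⟨_, Set.univ, rfl, fun g => ⟨g, mem_univ _, Eventually.of_forall (fun _ => le_rfl)⟩⟩
  have h3 : ℵ₀ < dNum := by
    by_contra h4
    obtain ⟨g, hg⟩ := belowD_aleph0 F (hF1 ▸ not_lt.1 h4)
    obtain ⟨f, hf1, hf2⟩ := hF2 g
    exact hg f hf1 hf2
  have h4 : ∀ a : dNum.ord.ToType, #(Iic a) < dNum := fun a => by
    simpa using mk_Iic_lt a (by simp) (by simpa using h3.le)
  obtain ⟨e⟩ : Nonempty (dNum.ord.ToType ≃ F) := by
    rw [← Cardinal.eq, hF1]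
    simp
  have he : ∀ g : ℕ → ℕ, ∃ a, ∀ᶠ n in atTop, g n ≤ (e a : ℕ → ℕ) n := fun g => by
    obtain ⟨f, hf1, hf2⟩ := hF2 g
    exact ⟨e.symm ⟨f, hf1⟩, by simpa using hf2⟩
  have h2 := belowU_of_singular h3 h1 h (fun a => e a) he
  obtain ⟨S, hS⟩ := main (L := dNum.ord.ToType) (fun a => e a) he
    (fun a => ⟨max #(Iic a) ℵ₀, le_max_right _ _, h1 _ (max_lt (h4 a) h3),
      h2 _ (max_lt (h4 a) h3), le_max_left _ _⟩)
  obtain ⟨A, B, hA, hB, i, hi⟩ := hP dNum.ord.ToType (by simp)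
    (fun q => if q.2 ∈ S q.1 then 0 else 1)
  obtain ⟨b, hb⟩ := hS B hB
  have h5 : A ⊆ Iic b := by
    intro a ha
    by_contra h6
    obtain ⟨⟨x, hx1, hx2⟩, y, hy1, hy2⟩ := hb a (not_le.1 h6).le
    have e1 := hi a ha x hx1
    have e2 := hi a ha y hy1
    simp only [if_pos hx2] at e1
    simp only [if_neg hy2] at e2
    exact absurd (e1.trans e2.symm) (by decide)
  exact absurd (lt_of_le_of_lt (mk_le_mk_of_subset h5) (h4 b)) (by rw [hA]; exact lt_irrefl _)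

end Pool.Agent.Results.MP_10964f_lc.Negative
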